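import Pool.Agent.Helper32.FR.Sent
import Pool.Agent.Helper84.BA.Pt
import Pool.Agent.Helper68.FR.Inc

/-!
# Project FR, D3: recursive construction of the scale
-/

set_option autoImplicit false

namespace Pool.Agent.Helper32.FR

open Pool.Agent.Helper33.HM Pool.Agent.Helper94.BA Filter

universe u

section

variable {B : Type u} [CompleteBooleanAlgebra B]

theorem h93_ae_dec (x : ℕ → B) :
    ∀ᶠ φ in aeB B, ∀ n k, (φ (decV x n k) ↔ fnLe (fun i => φ (x i)) n k) := by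
  filter_upwards [ae_forall fun q : ℕ × ℕ => ae_iSup fun j : ℕ => ⨆ _ : j ≤ q.2,
      x (Nat.pair q.1 j), ae_forall fun n : ℕ => ae_iInf fun j : ℕ => (x (Nat.pair n j))ᶜ]
    with φ h1 h2 n k
  unfold decV fnLe
  rw [Pt.sup, h1 (n, k), h2 n]
  simp

theorem h93_ae_ls (x y : ℕ → B) :
    ∀ᶠ φ in aeB B, (φ (lsV x y) ↔ LeStar (fun i => φ (x i)) (fun i => φ (y i))) := by
  filter_upwards [ae_iSup fun m : ℕ => ⨅ n : ℕ, ⨅ _ : m ≤ n, ⨅ k : ℕ, decV y n k ⇨ decV x n k,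
    ae_forall fun m : ℕ => ae_iInf fun n : ℕ => ⨅ _ : m ≤ n, ⨅ k : ℕ, decV y n k ⇨ decV x n k,
    ae_forall fun n : ℕ => ae_iInf fun k : ℕ => decV y n k ⇨ decV x n k, h93_ae_dec x,
    h93_ae_dec y] with φ h1 h2 h3 hx hy
  unfold lsV leStar LeStar
  rw [h1]
  refine exists_congr fun m => ?_
  rw [h2]
  refine forall_congr' fun n => ?_
  rw [Pt.iInf_prop]
  refine forall_congr' fun _ => ?_
  rw [h3]
  refine forall_congr' fun k => ?_
  rw [Pt.himp, hx, hy]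

theorem h93_fnLe_mono {x : ℕ → Prop} {n i k : ℕ} (h : i ≤ k) (hx : fnLe x n i) : fnLe x n k := by
  rcases hx with ⟨j, hj, hx⟩ | hx
  · exact Or.inl ⟨j, hj.trans h, hx⟩
  · exact Or.inr hx

theorem h93_fnLe_total (x : ℕ → Prop) (n : ℕ) : ∃ k, fnLe x n k := by
  by_cases h : ∃ j, x (Nat.pair n j)
  · obtain ⟨j, hj⟩ := h
    exact ⟨j, Or.inl ⟨j, le_rfl, hj⟩⟩
  · exact ⟨0, Or.inr fun j hj => h ⟨j, hj⟩⟩

/-- `c` is everywhere strictly greater than `G`. -/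
def h93_Gt (c G : ℕ → B) : Prop := ∀ n k, decV c n k ≤ ⨆ i : ℕ, ⨆ _ : i < k, decV G n i

theorem h93_ae_gt {c G : ℕ → B} (h : h93_Gt c G) :
    ∀ᶠ φ in aeB B, ∀ n k, fnLe (fun i => φ (c i)) n k → ∃ i, i < k ∧ fnLe (fun i => φ (G i)) n i := by
  filter_upwards [h93_ae_dec c, h93_ae_dec G,
    ae_forall fun q : ℕ × ℕ => ae_iSup fun i : ℕ => ⨆ _ : i < q.2, decV G q.1 i]
    with φ h1 h2 h3 n k hk
  have h4 := φ.mono (h n k) ((h1 n k).2 hk)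
  rw [h3 (n, k)] at h4
  obtain ⟨i, hi⟩ := h4
  rw [Pt.iSup_prop] at hi
  obtain ⟨h5, h6⟩ := hi
  exact ⟨i, h5, (h2 n i).1 h6⟩

theorem h93_ls_of_gt {g c G : ℕ → B} (h : h93_Gt c G) (hg : lsV g G = ⊤) : lsV g c = ⊤ := by
  refine eq_top_of_ae ?_
  filter_upwards [h93_ae_gt h, h93_ae_ls g G, h93_ae_ls g c] with φ h1 h2 h3
  rw [h3]
  have h4 : LeStar (fun i => φ (g i)) (fun i => φ (G i)) := h2.1 (by rw [hg]; exact φ.top')
  obtain ⟨m, hm⟩ := h4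
  refine ⟨m, fun n hn k hk => ?_⟩
  obtain ⟨i, hi, hi'⟩ := h1 n k hk
  exact h93_fnLe_mono hi.le (hm n hn i hi')

theorem h93_ls_bot {g c G : ℕ → B} (h : h93_Gt c G) (hg : lsV g G = ⊤) : lsV c g = ⊥ := by
  refine eq_bot_of_ae ?_
  filter_upwards [h93_ae_gt h, h93_ae_ls g G, h93_ae_ls c g] with φ h1 h2 h3
  rw [h3]
  rintro ⟨m', hm'⟩
  have h4 : LeStar (fun i => φ (g i)) (fun i => φ (G i)) := h2.1 (by rw [hg]; exact φ.top')
  obtain ⟨m, hm⟩ := h4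
  classical
  have hex := h93_fnLe_total (fun i => φ (G i)) (max m m')
  have h5 := Nat.find_spec hex
  have h6 := hm' _ (le_max_right m m') _ (hm _ (le_max_left m m') _ h5)
  obtain ⟨i, hi, hi'⟩ := h1 _ _ h6
  exact Nat.find_min hex hi hi'

theorem h93_step (hb : Bdg B) (ρ : Ordinal.{0} → (ℕ → B)) (β : Ordinal.{0})
    (f : (γ : Ordinal.{0}) → γ < β → ℕ → B) (r : ℕ) :
    ∃ c : ℕ → B, incV c = ⊤ ∧ (∀ k, k < r → decV c 0 k = ⊥) ∧
      ∃ G : ℕ → B, (∀ γ (h : γ < β), lsV (f γ h) G = ⊤) ∧ lsV (ρ β) G = ⊤ ∧ h93_Gt c G := by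
  obtain ⟨G, hG⟩ := hb (Option (Shrink.{0} (Set.Iio β))) (fun j => match j with
    | none => ρ β
    | some j => f ((equivShrink (Set.Iio β)).symm j).1 ((equivShrink (Set.Iio β)).symm j).2)
  obtain ⟨c, h1, h2, h3⟩ := exists_inc G r
  have h4 : ∀ a : Set.Iio β, lsV (f a.1 a.2) G = ⊤ := by
    intro a
    obtain ⟨j, rfl⟩ := (equivShrink (Set.Iio β)).symm.surjective a
    exact hG (some j)
  exact ⟨c, h1, h3, G, fun γ h => h4 ⟨γ, h⟩, hG none, h2⟩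

end

/-- FR-D3 -/
theorem exists_scale {B : Type 1} [CompleteBooleanAlgebra B] (hb : Bdg B)
    (hρ : ∃ ρ : Ordinal.{0} → (ℕ → B), Function.Surjective ρ) :
    ∃ c : Ordinal.{0} → ℕ → B, Scale c := by
  obtain ⟨ρ, hρ⟩ := hρ
  obtain ⟨r, hr⟩ := exists_cofinal_nat
  choose C hC1 hC2 G hG1 hG2 hG3 using h93_step hb ρ
  let c : Ordinal.{0} → ℕ → B := WellFounded.fix (Ordinal.lt_wf.{0}) fun β ih => C β ih (r β)
  have hc : ∀ β, c β = C β (fun γ _ => c γ) (r β) := fun β =>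
    WellFounded.fix_eq (Ordinal.lt_wf.{0}) (fun β ih => C β ih (r β)) β
  have hgt : ∀ β, h93_Gt (c β) (G β (fun γ _ => c γ) (r β)) := by
    intro β
    rw [hc β]
    exact hG3 β (fun γ _ => c γ) (r β)
  refine ⟨c, ⟨?_, ?_, ?_, ?_, ?_⟩⟩
  · intro β
    rw [hc β]
    exact hC1 _ _ _
  · intro β γ h
    exact h93_ls_of_gt (hgt γ) (hG1 γ (fun γ _ => c γ) (r γ) β h)
  · intro β γ h
    exact h93_ls_bot (hgt γ) (hG1 γ (fun γ _ => c γ) (r γ) β h)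
  · intro β n
    obtain ⟨γ, h1, h2⟩ := hr β (n + 1)
    refine ⟨γ, h1, ?_⟩
    rw [hc γ]
    exact hC2 _ _ _ n (by omega)
  · intro g
    obtain ⟨β, rfl⟩ := hρ g
    refine top_le_iff.1 ?_
    rw [← h93_ls_of_gt (hgt β) (hG2 β (fun γ _ => c γ) (r β))]
    exact le_iSup (fun β' => lsV (ρ β) (c β')) β

end Pool.Agent.Helper32.FR
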