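import Pool.Agent.Helper32.FR.Defs
import Pool.Agent.Helper54.BA.CEcalc
import Pool.Agent.Helper46.BA.FinCalc
import Pool.Agent.Helper6.BA.ResGlue
import Pool.Agent.Helper69.FR.Add
import Pool.Agent.Helper68.FR.Names
import Pool.Agent.Helper45.FR.Emb
import Pool.Agent.Helper32.FR.NoNew

/-!
# Project FR, B4: the tower along the branch
-/

set_option autoImplicit false
set_option linter.unusedSectionVars false

namespace Pool.Agent.Helper32.FR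

open Pool.Agent.Helper33.HM Pool.Agent.Helper94.BA

universe u

section B

variable {Ω : Type} [LinearOrder Ω] {I : Type 1} [LinearOrder I]
variable {F : I → Set (Name (PB Ω) I)} {ℓ : I}

/-! ## The proof -/

theorem h93_not_mem {P : Type u} [Preorder P] {U : RO P} {w : P} (h : w ∉ U) :
    ∃ v, v ≤ w ∧ v ∈ Uᶜ := by
  by_contra hcon
  push Not at hcon
  refine h (RO.mem_reg fun q hq => ?_)
  have h1 := hcon q hq
  rw [RO.mem_compl] at h1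
  push Not at h1
  exact h1

theorem h93_compl_apply {P : Type u} [Preorder P] (f : ℕ → RO P) (n : ℕ) : fᶜ n = (f n)ᶜ := rfl

/-- Values computed in the base algebra. -/
theorem h93_fin_base {f : ℕ → RO (PB Ω)} {p : Cnd F ℓ} :
    p ∈ finV (fun k => (baseE (f k) : RO (Cnd F ℓ))) ↔ p.1.base ∈ finV f := by
  rw [← (baseE_ce (F := F) (ℓ := ℓ)).map_finV, mem_baseE]

theorem h93_fin_eN {f : ℕ → RO (Cnd F ℓ)} {w : FT F ℓ} :
    w ∈ finV (fun k => (eN (f k) : RO (FT F ℓ))) ↔ w.1.1 ∈ finV f := by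
  rw [← (eN_ce (F := F) (ℓ := ℓ)).map_finV, mem_eN]

theorem h93_tower_inf (x : Ω) : finV (aT x : ℕ → RO (FT F ℓ)) = ⊥ := by
  have h1 : (aT x : ℕ → RO (FT F ℓ)) = fun k => eN (baseE (aN x k)) := rfl
  rw [h1, ← (eN_ce (F := F) (ℓ := ℓ)).map_finV (fun k => baseE (aN x k)),
    ← (baseE_ce (F := F) (ℓ := ℓ)).map_finV, aN_inf]
  rw [(baseE_ce (F := F) (ℓ := ℓ)).map_bot, (eN_ce (F := F) (ℓ := ℓ)).map_bot]

theorem h93_dec {w : FT F ℓ} {x y : Ω} (hx : x ∈ w.1.2) (hy : y ∈ w.1.2)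
    (h : w.1.1.1.base.down.R x y) :
    w ∈ finV ((aT y : ℕ → RO (FT F ℓ)) ⊓ (aT x)ᶜ) := by
  have h1 : ((aT y : ℕ → RO (FT F ℓ)) ⊓ (aT x)ᶜ) =
      fun k => eN (baseE (((aN y : ℕ → RO (PB Ω)) ⊓ (aN x)ᶜ) k)) := by
    funext k
    rw [Pi.inf_apply, Pi.inf_apply, Pi.compl_apply, Pi.compl_apply,
      (baseE_ce (F := F) (ℓ := ℓ)).map_inf, (eN_ce (F := F) (ℓ := ℓ)).map_inf,
      (baseE_ce (F := F) (ℓ := ℓ)).map_compl, (eN_ce (F := F) (ℓ := ℓ)).map_compl]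
    rfl
  rw [h1, h93_fin_eN, h93_fin_base]
  exact aN_dec (w.2.1 hx) (w.2.1 hy) h

theorem h93_tower_chain (x y : Ω) : (brN x : RO (FT F ℓ)) ⊓ brN y ≤
    finV ((aT x : ℕ → RO (FT F ℓ)) ⊓ (aT y)ᶜ) ⊔ finV (aT y ⊓ (aT x)ᶜ) := by
  intro w hw
  refine RO.mem_sup.2 fun v hv => ?_
  obtain ⟨u, hu, hxu⟩ := mem_brN.1 hw.1 v hv
  obtain ⟨u', hu', hyu'⟩ := mem_brN.1 hw.2 u (hu.trans hv)
  have hxu' : x ∈ u'.1.2 := hu'.2 hxu
  refine ⟨u', hu'.trans hu, ?_⟩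
  rcases u'.2.2 x hxu' y hyu' with h | h | h
  · left
    subst h
    rw [inf_compl_eq_bot, finV_bot]
    exact RO.mem_top u'
  · right
    exact h93_dec hxu' hyu' h
  · left
    exact h93_dec hyu' hxu' h

theorem h93_eq_inf {P : Type u} [Preorder P] {Z Z' X : ℕ → RO P} {w : P}
    (h : ∀ n, w ∈ iffV (Z n) (Z' n)) : w ∈ eqV (Z ⊓ X) (Z' ⊓ X) := by
  unfold eqV
  rw [RO.mem_iInf]
  intro n
  obtain ⟨h1, h2⟩ := h n
  exact ⟨RO.mem_himp.2 fun q hq h3 => ⟨RO.mem_himp.1 h1 q hq h3.1, h3.2⟩,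
    RO.mem_himp.2 fun q hq h3 => ⟨RO.mem_himp.1 h2 q hq h3.1, h3.2⟩⟩

theorem h93_tower_max (h : OmOne Ω) (Z : ℕ → RO (FT F ℓ)) :
    (finV Z)ᶜ ≤ ⨆ x, (brN x : RO (FT F ℓ)) ⊓ (finV (Z ⊓ (aT x)ᶜ))ᶜ := by
  intro w0 hw0
  rw [RO.mem_iSup]
  by_contra hcon
  push Not at hcon
  obtain ⟨v0, hv0, hcon⟩ := hcon
  have hb : (RO.gen {v0} : RO (FT F ℓ)) ≠ ⊥ :=
    RO.ne_bot_iff.2 ⟨v0, fun q hq => ⟨q, le_rfl, v0, rfl, hq⟩⟩
  obtain ⟨c, hcb, hc, g, hg⟩ := ft_noNew h (F := F) (ℓ := ℓ) _ hb Z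
  obtain ⟨v1, hv1⟩ := RO.ne_bot_iff.1 hc
  obtain ⟨w1, hw1, _, rfl, hw1'⟩ := hcb v1 hv1 v1 le_rfl
  have hw1c : w1 ∈ c := RO.mem_lower hw1 hv1
  obtain ⟨y, hy⟩ := h.bdd (w1.1.1.1.base.down.d : Set Ω) (Finset.countable_toSet _)
  obtain ⟨z, hz⟩ := h.bdd (insert y (w1.1.1.1.base.down.d : Set Ω))
    ((Finset.countable_toSet _).insert y)
  have hyz : y < z := hz y (Set.mem_insert _ _)
  obtain ⟨q, hq, hcy, hcz, hyzq⟩ := exists_add_two w1.1.1.1.base.down w1.1.2 w1.2 y z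
    (fun x hx => hy x hx) (fun x hx => hz x (Set.mem_insert_of_mem _ hx)) hyz.ne
  obtain ⟨r, hr, hrb⟩ := exists_base w1.1.1 (ULift.up q) hq
  have hrd : r.1.base.down = q := by rw [hrb]
  -- the condition with a new node in the chain
  have key : ∀ x, q.Chn (insert x w1.1.2) →
      r ∈ finV (g ⊓ fun n => (baseE (aN x n) : RO (Cnd F ℓ))ᶜ) := by
    intro x hx
    let wx : FT F ℓ := ⟨(r, insert x w1.1.2), by
      show r.1.base.down.Chn (insert x w1.1.2)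
      rw [hrd]; exact hx⟩
    have hwx : wx ≤ w1 := ⟨hr, Finset.subset_insert _ _⟩
    have hbr : wx ∈ (brN x : RO (FT F ℓ)) :=
      mem_brN.2 fun v hv => ⟨v, le_rfl, hv.2 (Finset.mem_insert_self _ _)⟩
    have h1 : wx ∈ finV (Z ⊓ (aT x)ᶜ) := by
      by_contra h2
      obtain ⟨v, hv, hv'⟩ := h93_not_mem h2
      exact hcon v (hv.trans (hwx.trans hw1')) x ⟨RO.mem_lower hv hbr, hv'⟩
    have hwc : wx ∈ c := RO.mem_lower hwx hw1c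
    have h2 : wx ∈ eqV (Z ⊓ (aT x)ᶜ) ((fun n => eN (g n)) ⊓ (aT x)ᶜ) :=
      h93_eq_inf fun n => hg n wx hwc
    have h3 : wx ∈ finV ((fun n => (eN (g n) : RO (FT F ℓ))) ⊓ (aT x)ᶜ) :=
      RO.le_def.1 (finV_ext _ _) wx ⟨h2, h1⟩
    have h4 : ((fun n => (eN (g n) : RO (FT F ℓ))) ⊓ (aT x)ᶜ) =
        fun n => eN ((g ⊓ fun n => (baseE (aN x n) : RO (Cnd F ℓ))ᶜ) n) := by
      funext n
      rw [Pi.inf_apply, Pi.inf_apply, Pi.compl_apply, (eN_ce (F := F) (ℓ := ℓ)).map_inf,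
        (eN_ce (F := F) (ℓ := ℓ)).map_compl]
      rfl
    rw [h4, h93_fin_eN] at h3
    exact h3
  have h1 := key y hcy
  have h2 := key z hcz
  have h3 : r ∈ finV (fun n => (baseE (((aN y : ℕ → RO (PB Ω)) ⊓ aN z) n) : RO (Cnd F ℓ))) := by
    rw [h93_fin_base]
    refine aN_ad ?_ ?_ ?_
    · rw [hrd]; exact hcy.1 (Finset.mem_insert_self _ _)
    · rw [hrd]; exact hcz.1 (Finset.mem_insert_self _ _)
    · rw [hrd]; exact hyzq
  have h4 : r ∈ finV g := by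
    have h5 : g ≤ ((g ⊓ fun n => (baseE (aN y n) : RO (Cnd F ℓ))ᶜ) ⊔
        (g ⊓ fun n => (baseE (aN z n) : RO (Cnd F ℓ))ᶜ)) ⊔
        (fun n => (baseE (((aN y : ℕ → RO (PB Ω)) ⊓ aN z) n) : RO (Cnd F ℓ))) := by
      intro n
      rw [Pi.sup_apply, Pi.sup_apply, Pi.inf_apply, Pi.inf_apply, Pi.inf_apply,
        (baseE_ce (F := F) (ℓ := ℓ)).map_inf, ← inf_sup_left, ← compl_inf]
      have h6 : (((baseE (aN y n) : RO (Cnd F ℓ)) ⊓ baseE (aN z n))ᶜ) ⊔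
          ((baseE (aN y n) : RO (Cnd F ℓ)) ⊓ baseE (aN z n)) = ⊤ := compl_sup_eq_top
      calc g n ≤ g n ⊓ ((((baseE (aN y n) : RO (Cnd F ℓ)) ⊓ baseE (aN z n))ᶜ) ⊔
          ((baseE (aN y n) : RO (Cnd F ℓ)) ⊓ baseE (aN z n))) := by rw [h6, inf_top_eq]
        _ ≤ _ := by
          rw [inf_sup_left]
          exact sup_le_sup le_rfl inf_le_right
    refine finV_mono h5 r ?_
    rw [finV_sup, finV_sup]
    exact ⟨⟨h1, h2⟩, h3⟩
  let w2 : FT F ℓ := ⟨(r, insert y w1.1.2), by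
    show r.1.base.down.Chn (insert y w1.1.2)
    rw [hrd]; exact hcy⟩
  have hw2 : w2 ≤ w1 := ⟨hr, Finset.subset_insert _ _⟩
  have hw2c : w2 ∈ c := RO.mem_lower hw2 hw1c
  have h5 : w2 ∈ finV (fun n => (eN (g n) : RO (FT F ℓ))) := h93_fin_eN.2 h4
  have h6 : w2 ∈ eqV (fun n => (eN (g n) : RO (FT F ℓ))) Z := by
    unfold eqV
    rw [RO.mem_iInf]
    intro n
    obtain ⟨h7, h8⟩ := hg n w2 hw2c
    exact ⟨h8, h7⟩
  exact RO.mem_compl.1 hw0 w2 (hw2.trans (hw1'.trans hv0)) 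
    (RO.le_def.1 (finV_ext _ _) w2 ⟨h6, h5⟩)

/-- FR-B4: the tower. -/
theorem ft_tower (h : OmOne Ω) :
    Tower Ω (aT : Ω → ℕ → RO (FT F ℓ)) (brN : Ω → RO (FT F ℓ)) :=
  ⟨h93_tower_inf, h93_tower_chain, h93_tower_max h⟩

end B

end Pool.Agent.Helper32.FR
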